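import Pool.Agent.J4H90.RotCut

/-!
# There are infinitely many rotation snarks

The definitions are those of `Pool.Agent.N366.RS.Stm`: `Node i` is the vertex set of the tree `T_i`
drawn in the plane (`(d, c)` is the `c`-th vertex, clockwise, at distance `d` from the centre `(0, 0)`),
`tree i` is `T_i`, `leaf i a` is the leaf with label `a` modulo `l_i = width i`, `IsSnark` says cubic,
cyclically 4-edge-connected, girth at least 5, no proper 3-edge-colouring, and `IsRotationTSnark i G`
says that `i ≥ 2`, `G` is a snark and has a spanning copy of `T_i` such that `a ↦ a + l_i / 3` maps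
edges joining leaves to edges.

The construction. Write `m = 2 ^ (i - 4)`. Cut `T_i` into the `6 m` subtrees (blocks) of depth two at the
bottom; the block `j` has the leaves `4 j, …, 4 j + 3`, and gets the edges `{4 j, 4 j + 3}` and
`{4 j + 1, 4 j + 2}`; it is the Petersen graph without a path with three vertices. With a permutation `σ` of the
blocks we join `4 j` to `4 σ(j) + 1` and `4 j + 2` to `4 σ(j) + 3`. In every 3-edge-colouring exactly one of
the two pairs of edges (to `σ(j)`, from `σ⁻¹(j)`) is monochromatic, so `σ` has no odd cycle. We take `σ` with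
two cycles, one with the nine blocks `0, 2, 4, 2 m, 2 m + 2, …, 4 m + 4` and one with all the others. A
cut with at most three edges which leaves a cycle on both sides would separate the two leaf
cycles, but these are joined by nine disjoint paths in the tree.
-/

set_option autoImplicit false

namespace Pool.Agent.Results.MP_3688cb_co.InfinitelyMany

open Pool.Agent.N366.RS Pool.Agent.J4H90.Rot

theorem isRotation (t : ℕ) : IsRotationTSnark (t + 6) (G t) := by
  refine ⟨by omega, ⟨cubic, ?_, girth5, uncol⟩, Equiv.refl _, tree_le, rot⟩
  intro D _ hD u v c d hc hd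
  exact cyclic D hD u v c d hc hd

theorem card_node (i : ℕ) : Fintype.card (Node i) = ∑ d ∈ Finset.range (i + 1), width d := by
  rw [Fintype.card_congr (nodeEquiv i), Fintype.card_sigma, Finset.sum_range]
  exact Finset.sum_congr rfl fun d _ => Fintype.card_fin _

theorem card_strictMono : StrictMono fun i : ℕ => Fintype.card (Node i) := by
  refine strictMono_nat_of_lt_succ fun i => ?_
  simp only [card_node]
  rw [Finset.sum_range_succ _ (i + 1)]
  have := width_pos (i + 1)
  omega

/-- For every `i ≥ 6` there is a rotation `T_i`-snark; in particular there are infinitely many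
pairwise non-isomorphic rotation snarks. -/
theorem result :
    (∀ i : ℕ, 6 ≤ i → ∃ G : SimpleGraph (Node i), IsRotationTSnark i G) ∧
    ∃ (V : ℕ → Type) (_ : ∀ n, Fintype (V n)) (G : ∀ n, SimpleGraph (V n)),
      (∀ n, ∃ i, IsRotationTSnark i (G n)) ∧ ∀ m n, m ≠ n → IsEmpty (G m ≃g G n) := by
  constructor
  · intro i hi
    obtain ⟨t, rfl⟩ : ∃ t, i = t + 6 := ⟨i - 6, by omega⟩
    exact ⟨G t, isRotation t⟩
  · refine ⟨fun n => Node (n + 6), fun n => inferInstance, fun n => G n,
      fun n => ⟨n + 6, isRotation n⟩, fun m n hmn => ⟨fun e => hmn ?_⟩⟩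
    have h := Fintype.card_congr e.toEquiv
    have h2 : m + 6 = n + 6 := card_strictMono.injective h
    omega

end Pool.Agent.Results.MP_3688cb_co.InfinitelyMany
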